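import Pool.Agent.R331.LF.Upper
import Pool.Agent.R331.LF.Slice

set_option autoImplicit false

namespace Pool.Agent.Results.MP_18f540_nt.DimFormula

open MeasureTheory Filter Topology Set
open scoped ENNReal
open Pool.Agent.R331.LF

/-- `E(w)`: pairs `(x 0, x 1)` such that for some `c > 0` the inequality
`|p x₀ + q x₁ + r| < c max(p,q)^{-w}` has infinitely many integer solutions `(p,q,r)` with `p, q > 0`. -/
def E (w : ℝ) : Set (EuclideanSpace ℝ (Fin 2)) :=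
  {x | ∃ c : ℝ, 0 < c ∧ {v : ℤ × ℤ × ℤ | 0 < v.1 ∧ 0 < v.2.1 ∧
    |(v.1:ℝ) * x 0 + (v.2.1:ℝ) * x 1 + (v.2.2:ℝ)| < c * (max (v.1:ℝ) (v.2.1:ℝ))^(-w)}.Infinite}

theorem lower {w : ℝ} (hw : 2 < w) : ENNReal.ofReal (1 + 3/(w+1)) ≤ dimH (EP w) := by
  have hw1 : 0 < w + 1 := by linarith
  have h3 : 0 < 3/(w+1) := by positivity
  have main : ∀ s : ℝ, 0 < s → s < 3/(w+1) → ENNReal.ofReal (1 + s) ≤ dimH (EP w) := by
    intro s hs hs3
    have h4 : s * (w+1) < 3 := by rwa [lt_div_iff₀ hw1] at hs3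
    set δ : ℝ := min (1/2) ((3 - s*(w+1))/2) with hδ
    have hδ0 : 0 < δ := lt_min (by norm_num) (by linarith)
    have hδ1 : δ < 1 := lt_of_le_of_lt (min_le_left _ _) (by norm_num)
    have hδ2 : δ ≤ (3 - s*(w+1))/2 := min_le_right _ _
    refine slice (c := 1/20) hs (by norm_num) ?_
    filter_upwards [fiber hδ0 hδ1] with η hη A hA
    refine fiber_content hw hδ0 hδ1 hs ?_ η hη A hA
    rw [lt_div_iff₀ hw1]
    linarith
  refine le_of_forall_lt fun b hb => ?_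
  obtain ⟨c, hc1, hc2⟩ := ENNReal.lt_iff_exists_nnreal_btwn.mp hb
  have hc3 : (c:ℝ) < 1 + 3/(w+1) := by
    rw [← ENNReal.ofReal_coe_nnreal] at hc2
    exact (ENNReal.ofReal_lt_ofReal_iff_of_nonneg c.2).mp hc2
  set s : ℝ := max ((c:ℝ) - 1) (3/(w+1)/2) with hs
  have hs0 : 0 < s := lt_of_lt_of_le (by positivity) (le_max_right _ _)
  have hs1 : s < 3/(w+1) := max_lt (by linarith) (by linarith)
  refine lt_of_lt_of_le hc1 (le_trans ?_ (main s hs0 hs1))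
  rw [← ENNReal.ofReal_coe_nnreal]
  apply ENNReal.ofReal_le_ofReal
  have := le_max_left ((c:ℝ) - 1) (3/(w+1)/2)
  rw [← hs] at this
  linarith

theorem result : ∀ w : ℝ, 2 < w → dimH (E w) = ENNReal.ofReal (1 + 3/(w+1)) := by
  intro w hw
  have h1 : dimH (EP w) = ENNReal.ofReal (1 + 3/(w+1)) := le_antisymm (EP_upper hw) (lower hw)
  set e : EuclideanSpace ℝ (Fin 2) ≃L[ℝ] ℝ × ℝ :=
    (EuclideanSpace.equiv (Fin 2) ℝ).trans (ContinuousLinearEquiv.finTwoArrow ℝ ℝ) with he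
  have h2 : E w = e ⁻¹' (EP w) := rfl
  rw [h2, ContinuousLinearEquiv.dimH_preimage, h1]

end Pool.Agent.Results.MP_18f540_nt.DimFormula
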